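import Pool.Agent.Helper20.QD.St4

/-!
# Project QD, part B, module FSD: sides are preserved as soon as a Fuchsian representation exists
-/

set_option autoImplicit false

open Filter Topology Matrix Set Metric
open scoped ComplexConjugate ComplexOrder

namespace Pool.Agent.Helper37.QD

open Pool.Agent.Helper35.PM Pool.Agent.Helper20.QD

private theorem fs_ne {z : ℂ} (hz : z ∈ SS) : z ≠ 0 := by
  rintro rfl
  have h : (0 : ℂ) ∈ sphere (0 : ℂ) 1 := hz
  rw [mem_sphere, dist_self] at h
  norm_num at h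

private theorem fs_norm {z : ℂ} (hz : z ∈ SS) : ‖z‖ = 1 := by
  have h : z ∈ sphere (0 : ℂ) 1 := hz
  rwa [mem_sphere_zero_iff_norm] at h

private theorem fs_cg (hTPB : StTPB) {K : Set ℂ} {u v : ℂ → ℂ} (h : LogOn K u)
    (he : ∀ z ∈ K, u z = v z) : LogOn K v :=
  hTPB.2.2.2.2.2 K K u v (Subset.refl K) h he

private theorem fs_pw (hTCI : StTCI) (hTPB : StTPB) {m : ℤ}
    (h : LogOn SS (fun z => z ^ m)) : m = 0 := by
  apply hTCI.1 0 1 m one_pos
  apply fs_cg hTPB h
  intro z _
  simp only [sub_zero]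

private theorem fs_const (K : Set ℂ) {c : ℂ} (hc : c ≠ 0) : LogOn K (fun _ => c) :=
  ⟨fun _ => Complex.log c, continuousOn_const, fun _ _ => (Complex.exp_log hc).symm⟩

private theorem fs_su {A : SL} (hA : IsSU A) {ζ : ℂ} (hζ : ζ ∈ SS) : mob A ζ ∈ SS := by
  have hdet : (A : Mat) 0 0 * (A : Mat) 1 1 - (A : Mat) 0 1 * (A : Mat) 1 0 = 1 := by
    have h := A.2
    rw [Matrix.det_fin_two] at h
    exact h
  obtain ⟨h1, h2⟩ := hA
  have hn := fs_norm hζ
  have hz : ζ * conj ζ = 1 := by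
    rw [Complex.mul_conj, Complex.normSq_eq_norm_sq, hn]
    norm_num
  have e1 : (A : Mat) 1 0 * ζ + (A : Mat) 1 1 = ζ * conj ((A : Mat) 0 0 * ζ + (A : Mat) 0 1) := by
    rw [h1, h2, map_add, map_mul]
    linear_combination (-conj ((A : Mat) 0 0)) * hz
  have e2 : (A : Mat) 0 0 * ζ + (A : Mat) 0 1 ≠ 0 := by
    intro h0
    have e3 : (A : Mat) 0 1 = - ((A : Mat) 0 0 * ζ) := by linear_combination h0
    rw [h1, h2, e3, map_neg, map_mul] at hdet
    have h4 : (0 : ℂ) = 1 := by
      linear_combination hdet + (A : Mat) 0 0 * conj ((A : Mat) 0 0) * hz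
    exact zero_ne_one h4
  have h3 : mob A ζ = ((A : Mat) 0 0 * ζ + (A : Mat) 0 1) /
      (ζ * conj ((A : Mat) 0 0 * ζ + (A : Mat) 0 1)) := by
    unfold mob
    rw [e1]
  change mob A ζ ∈ sphere (0 : ℂ) 1
  rw [mem_sphere_zero_iff_norm, h3, norm_div, norm_mul, hn, one_mul, Complex.norm_conj,
    div_self (norm_ne_zero_iff.2 e2)]

theorem hFSD (hTCI : StTCI) (hTPB : StTPB) (hTJ1 : StTJ1) (hTJ2 : StTJ2) (hLQC : StLQC)
    (hLLA : StLLA) (hLGO : StLGO) (hFCO : StFCO) (hFDG : StFDG) : StFSD := by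
  intro Γ _ σ ρ hσ hρ hinf
  obtain ⟨b, hbc, hbij, heq, -⟩ := hFCO Γ σ ρ hσ hρ hinf
  obtain ⟨J, hJ⟩ : ∃ J : Set ℂ, J = Lam ρ := ⟨_, rfl⟩
  obtain ⟨-, -, hden, hmobn, -⟩ := hLLA Γ ρ hρ.discrete hinf
  obtain ⟨-, -, -, -, -, hQc, hQi, -, -, -, -⟩ := hLQC
  have hP : Param b J := ⟨hbc, hbij.injOn, by rw [hJ]; exact hbij.image_eq⟩
  have hmaps : MapsTo b SS J := by rw [hJ]; exact hbij.mapsTo
  obtain ⟨hne, s, hs, hslog⟩ := hTJ1 b J hP
  obtain ⟨hio, -, -, -, -, -, -, -⟩ := hTJ2 b J hP
  have main : ∀ γ, LogOn (Lam ρ) (den (ρ γ)) := by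
    intro γ
    rw [← hJ]
    have hdet : (ρ γ : Mat) 0 0 * (ρ γ : Mat) 1 1 - (ρ γ : Mat) 0 1 * (ρ γ : Mat) 1 0 = 1 := by
      have h := (ρ γ).2
      rw [Matrix.det_fin_two] at h
      exact h
    have hdenJ : ∀ z ∈ J, den (ρ γ) z ≠ 0 := by
      intro z hz
      rw [hJ] at hz
      exact (hden γ z hz).1
    have hmobJ : ∀ z ∈ J, mob (ρ γ) z ∈ J := by
      intro z hz
      rw [hJ] at hz ⊢
      exact (hden γ z hz).2
    have heq' := heq γ
    unfold den at hdenJ ⊢
    unfold mob at hmobJ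
    obtain ⟨a, ha⟩ : ∃ a, a = (ρ γ : Mat) 0 0 := ⟨_, rfl⟩
    obtain ⟨b', hb'⟩ : ∃ b', b' = (ρ γ : Mat) 0 1 := ⟨_, rfl⟩
    obtain ⟨c, hc⟩ : ∃ c, c = (ρ γ : Mat) 1 0 := ⟨_, rfl⟩
    obtain ⟨d, hd⟩ : ∃ d, d = (ρ γ : Mat) 1 1 := ⟨_, rfl⟩
    have heq2 : ∀ ζ ∈ SS, b (mob (σ γ) ζ) = (a * b ζ + b') / (c * b ζ + d) := by
      intro ζ hζ
      rw [heq' ζ hζ]
      unfold mob
      rw [ha, hb', hc, hd]
    rw [← ha, ← hb', ← hc, ← hd] at hdet
    rw [← hc, ← hd] at hdenJ ⊢
    rw [← ha, ← hb', ← hc, ← hd] at hmobJ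
    rcases eq_or_ne c 0 with hc0 | hc0
    · have hd0 : d ≠ 0 := by
        rintro rfl
        rw [hc0] at hdet
        simp at hdet
      apply fs_cg hTPB (fs_const J hd0)
      intro z _
      rw [hc0]
      ring
    · obtain ⟨q, hq⟩ : ∃ q, q = - d / c := ⟨_, rfl⟩
      have hcq : c * q = - d := by rw [hq]; field_simp
      have hqJ : q ∉ J := by
        intro h
        apply hdenJ q h
        rw [hcq]
        ring
      by_cases hqo : LogOn J (fun z => z - q)
      · apply fs_cg hTPB (hTPB.2.2.1 J _ _ (fs_const J hc0) hqo)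
        intro z _
        linear_combination - hcq
      · exfalso
        have hqi : q ∈ inn J := ⟨hqJ, hqo⟩
        obtain ⟨p, hp, hpa⟩ : ∃ p ∈ inn J, a - p * c ≠ 0 := by
          obtain ⟨p0, hp0⟩ := hne
          by_cases h0 : a - p0 * c = 0
          · obtain ⟨r, hr, hball⟩ := Metric.isOpen_iff.1 hio p0 hp0
            refine ⟨p0 + ((r / 2 : ℝ) : ℂ), hball ?_, ?_⟩
            · rw [mem_ball, dist_eq_norm, add_sub_cancel_left, Complex.norm_real,
                Real.norm_of_nonneg (by positivity)]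
              linarith
            · intro h1
              have h2 : ((r / 2 : ℝ) : ℂ) * c = 0 := by linear_combination h0 - h1
              rcases mul_eq_zero.1 h2 with h3 | h3
              · have h4 : r / 2 = 0 := by exact_mod_cast h3
                linarith
              · exact hc0 h3
          · exact ⟨p0, hp0, h0⟩
        obtain ⟨q', hq'⟩ : ∃ q', q' = (d * p - b') / (a - p * c) := ⟨_, rfl⟩
        have hq'e : (a - p * c) * q' = d * p - b' := by rw [hq']; field_simp
        have hq'J : q' ∉ J := by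
          intro h
          have h1 := hmobJ q' h
          have h2 := hdenJ q' h
          have h3 : (a * q' + b') / (c * q' + d) = p := by
            rw [div_eq_iff h2]
            linear_combination hq'e
          rw [h3] at h1
          exact hp.1 h1
        -- logarithms on the circle
        have l1 := hslog q hqi
        obtain ⟨e2, he2, l2⟩ : ∃ e2 : ℤ, (e2 = 0 ∨ e2 = -s) ∧
            LogOn SS (fun ζ => (b ζ - q') * ζ ^ e2) := by
          by_cases h : LogOn J (fun z => z - q')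
          · refine ⟨0, Or.inl rfl, ?_⟩
            apply fs_cg hTPB (hTPB.1 SS J b _ hbc hmaps h)
            intro z _
            rw [_root_.zpow_zero, mul_one]
          · exact ⟨-s, Or.inr rfl, hslog q' ⟨hq'J, h⟩⟩
        have l3 := hslog p hp
        have hsu := hσ.su γ
        have hφ : MapsTo (mob (σ γ)) SS SS := fun ζ hζ => fs_su hsu hζ
        have l4 := (hFDG.1 (σ γ) hsu).1
        have hφc : ContinuousOn (mob (σ γ)) SS := by
          obtain ⟨g, hg, hg2⟩ := l4
          have h1 : ContinuousOn (fun ζ => Complex.exp (g ζ) * ζ) SS :=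
            (Complex.continuous_exp.comp_continuousOn hg).mul continuousOn_id
          apply h1.congr
          intro ζ hζ
          have h2 : mob (σ γ) ζ * ζ ^ (-1 : ℤ) = Complex.exp (g ζ) := hg2 ζ hζ
          change mob (σ γ) ζ = Complex.exp (g ζ) * ζ
          rw [← h2, _root_.zpow_neg, _root_.zpow_one, mul_assoc,
            inv_mul_cancel₀ (fs_ne hζ), mul_one]
        have l5 := hTPB.1 SS SS (mob (σ γ)) _ hφc hφ l3
        have l6 := hTPB.2.2.2.1 SS _ s l4
        have l7 := hTPB.2.2.1 SS _ _ l5 l6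
        -- `b (φ ζ) - p` times `ζ ^ (-s)`
        have l8 : LogOn SS (fun ζ => (b (mob (σ γ) ζ) - p) * ζ ^ (-s)) := by
          apply fs_cg hTPB l7
          intro ζ hζ
          have h0 := fs_ne hζ
          have h1 := fs_ne (hφ hζ)
          rw [_root_.mul_zpow, ← _root_.zpow_mul, _root_.zpow_neg (mob (σ γ) ζ)]
          have h2 : (-1 : ℤ) * s = -s := by ring
          rw [h2]
          have h3 : mob (σ γ) ζ ^ s ≠ 0 := zpow_ne_zero _ h1
          field_simp
        have hK : (a - p * c) / c ≠ 0 := div_ne_zero hpa hc0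
        have l9 := hTPB.2.2.1 SS _ _ (hTPB.2.2.1 SS _ _ (hTPB.2.2.1 SS _ _ l2 (hTPB.2.2.2.1 SS _
          (-1) l1)) (fs_const SS hK)) (hTPB.2.2.2.1 SS _ (-1) l8)
        have l10 : LogOn SS (fun ζ => ζ ^ (e2 + 2 * s)) := by
          apply fs_cg hTPB l9
          intro ζ hζ
          have h0 := fs_ne hζ
          have h1 : c * b ζ + d ≠ 0 := hdenJ _ (hmaps hζ)
          have h2 : b ζ - q ≠ 0 := by
            intro h
            apply h1
            linear_combination c * h - hcq * (-1)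
          have h3 : b ζ - q' ≠ 0 := by
            intro h
            apply hq'J
            rw [← sub_eq_zero.1 h]
            exact hmaps hζ
          have h4 : b (mob (σ γ) ζ) - p = (a - p * c) / c * (b ζ - q') / (b ζ - q) := by
            rw [heq2 ζ hζ, eq_div_iff h2, sub_mul, div_mul_eq_mul_div, div_mul_eq_mul_div,
              div_sub' h1, div_eq_div_iff h1 hc0]
            linear_combination (-(a * b ζ + b') + p * (c * b ζ + d)) * hcq +
              (c * b ζ + d) * hq'e
          rw [h4]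
          simp only [_root_.zpow_neg, _root_.zpow_one]
          rw [zpow_add₀ h0, two_mul, zpow_add₀ h0]
          have h5 : ζ ^ s ≠ 0 := zpow_ne_zero _ h0
          field_simp
        have h11 := fs_pw hTCI hTPB l10
        rcases hs with hs | hs <;> rcases he2 with h | h <;> omega
  refine ⟨main, ?_⟩
  have hhom : Nonempty (limitSet ρ ≃ₜ Circle) := by
    have himg : limitSet ρ = Qp '' Lam ρ := (hLLA Γ ρ hρ.discrete hinf).2.1
    have hmem : ∀ ζ : Circle, (ζ : ℂ) ∈ SS := by
      intro ζ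
      change (ζ : ℂ) ∈ sphere (0 : ℂ) 1
      rw [mem_sphere_zero_iff_norm]
      exact Circle.norm_coe ζ
    let f : Circle → limitSet ρ := fun ζ => ⟨Qp (b (ζ : ℂ)), by
      rw [himg]
      exact ⟨_, hbij.mapsTo (hmem ζ), rfl⟩⟩
    have hf : Function.Bijective f := by
      constructor
      · intro x y hxy
        have h1 : Qp (b (x : ℂ)) = Qp (b (y : ℂ)) := congrArg Subtype.val hxy
        have h2 := hbij.injOn (hmem x) (hmem y) (hQi h1)
        exact Circle.ext h2
      · rintro ⟨Q, hQ⟩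
        have hQ' := hQ
        rw [himg] at hQ'
        obtain ⟨z, hz, rfl⟩ := hQ'
        obtain ⟨ζ, hζ, rfl⟩ := hbij.surjOn hz
        exact ⟨⟨ζ, hζ⟩, rfl⟩
    have hfc : Continuous f := by
      apply Continuous.subtype_mk
      apply hQc.comp
      exact hbc.comp_continuous continuous_subtype_val hmem
    exact ⟨(Continuous.homeoOfEquivCompactToT2 (f := Equiv.ofBijective f hf) hfc).symm⟩
  exact (hLGO Γ ρ hρ hinf hhom).2.2.1 main

end Pool.Agent.Helper37.QD
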