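import Pool.Agent.Helper20.QD.St3

/-!
# Project QD, part B, module LLA: the limit set in the coordinate
-/

set_option autoImplicit false

open Filter Topology Matrix Set Metric
open scoped ComplexConjugate ComplexOrder

namespace Pool.Agent.Helper37.QD

open Pool.Agent.Helper35.PM Pool.Agent.Helper20.QD

private theorem lla_alg {D a R M e ε : ℝ} (hM : M = 1 + R ^ 2) (hR : 0 ≤ R)
    (hD : 0 ≤ D) (he : 0 < e) (hε : 0 < ε) (h1 : 8 * e * M ≤ 1) (h2 : 8 * e * M ^ 2 ≤ ε ^ 2)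
    (ha : a ≤ 1 + (2 * D ^ 2 + 2 * R ^ 2)) (ha1 : 1 ≤ a)
    (h : 2 * D ^ 2 < 4 * e * (a * M)) : D < ε := by
  have hM1 : 1 ≤ M := by rw [hM]; nlinarith
  have h3 : a ≤ 2 * (M + D ^ 2) := by rw [hM]; nlinarith
  have h4 : 4 * e * (a * M) ≤ 4 * e * (2 * (M + D ^ 2) * M) := by
    apply mul_le_mul_of_nonneg_left _ (by positivity)
    exact mul_le_mul_of_nonneg_right h3 (by linarith)
  have h5 : 8 * e * M * D ^ 2 ≤ 1 * D ^ 2 := mul_le_mul_of_nonneg_right h1 (sq_nonneg D)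
  have h6 : D ^ 2 < ε ^ 2 := by nlinarith
  exact lt_of_pow_lt_pow_left₀ 2 hε.le h6

theorem hLLA (hLFR : StLFR) (hLQC : StLQC) (_hLMX : StLMX) (hLLS : StLLS) (hLDY : StLDY) :
    StLLA := by
  intro Γ _ ρ hρ hinf
  obtain ⟨hsph, hQinfs, hQps, hfr, hfri, hQc, hQi, hact, hactS, -, hactmul⟩ := hLQC
  obtain ⟨hcl, hLs, hfin, hinv, -⟩ := hLLS Γ ρ hρ
  obtain ⟨hfr0, htri, -, hbas⟩ := hLFR
  have hsymm : ∀ P Q : Mat, fr P Q = fr Q P := fun P Q => (hfr0 P Q).2.1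
  -- boundedness
  obtain ⟨δ, hδ, hδL⟩ : ∃ δ : ℝ, 0 < δ ∧ ∀ Q ∈ limitSet ρ, δ ≤ fr Qinf Q := by
    have h1 : (limitSet ρ)ᶜ ∈ 𝓝 Qinf := hcl.isOpen_compl.mem_nhds hinf
    obtain ⟨δ, hδ, hsub⟩ := (hbas Qinf).mem_iff.1 h1
    refine ⟨δ, hδ, fun Q hQ => ?_⟩
    by_contra hlt
    rw [not_le, hsymm] at hlt
    exact hsub hlt hQ
  have hbd : ∀ z ∈ Lam ρ, 1 + ‖z‖ ^ 2 ≤ 2 / δ := by
    intro z hz
    have h1 := hδL (Qp z) hz
    rw [hfri] at h1
    have h2 : 0 < 1 + ‖z‖ ^ 2 := by positivity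
    rw [le_div_iff₀ h2] at h1
    rw [le_div_iff₀ hδ]
    linarith
  have hcomp : IsCompact (Lam ρ) := by
    apply Metric.isCompact_of_isClosed_isBounded
    · exact hcl.preimage hQc
    · rw [isBounded_iff_forall_norm_le]
      refine ⟨2 / δ, fun z hz => ?_⟩
      have h1 := hbd z hz
      nlinarith [sq_nonneg (‖z‖ - 1), norm_nonneg z, sq_nonneg ‖z‖]
  have himg : limitSet ρ = Qp '' Lam ρ := by
    ext Q
    constructor
    · intro hQ
      rcases hsph Q (hLs hQ) with h | ⟨z, rfl⟩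
      · exact absurd (h ▸ hQ) hinf
      · exact ⟨z, hQ, rfl⟩
    · rintro ⟨z, hz, rfl⟩
      exact hz
  refine ⟨hcomp, himg, ?_, ?_, ?_⟩
  · intro γ z hz
    have h1 := hinv γ (Qp z) hz
    have h2 : den (ρ γ) z ≠ 0 := by
      intro h0
      rw [(hact (ρ γ) z).2 h0] at h1
      exact hinf h1
    refine ⟨h2, ?_⟩
    rw [(hact (ρ γ) z).1 h2] at h1
    exact h1
  · intro γ z hz hden hmob
    apply hz
    have h1 : Qp (mob (ρ γ) z) ∈ limitSet ρ := hmob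
    rw [← (hact (ρ γ) z).1 hden] at h1
    have h2 := hinv γ⁻¹ _ h1
    have h3 := (hQps z).1
    rw [← hactmul _ _ _ h3.1 h3.2.1, ← map_mul, inv_mul_cancel, map_one] at h2
    have h4 : act 1 (Qp z) = Qp z := by
      unfold act density
      simp only [Matrix.SpecialLinearGroup.coe_one, Matrix.conjTranspose_one, one_mul, mul_one]
      rw [h3.2.1, inv_one, one_smul]
    rw [h4] at h2
    exact h2
  · intro K hK hdis ε hε
    obtain ⟨RK, hRK⟩ := hK.isBounded.exists_norm_le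
    obtain ⟨RL, hRL⟩ := hcomp.isBounded.exists_norm_le
    obtain ⟨R, hR, hRK', hRL'⟩ : ∃ R : ℝ, 0 ≤ R ∧ (∀ z ∈ K, ‖z‖ ≤ R) ∧ ∀ z ∈ Lam ρ, ‖z‖ ≤ R := by
      refine ⟨max 0 (max RK RL), le_max_left _ _, fun z hz => ?_, fun z hz => ?_⟩
      · exact (hRK z hz).trans ((le_max_left _ _).trans (le_max_right _ _))
      · exact (hRL z hz).trans ((le_max_right _ _).trans (le_max_right _ _))
    obtain ⟨d, hd, hdK⟩ : ∃ d : ℝ, 0 < d ∧ ∀ z ∈ K, ∀ w ∈ Lam ρ, d ≤ ‖z - w‖ := by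
      obtain ⟨r, hr, hr2⟩ := exists_pos_forall_lt_edist hK hcomp.isClosed hdis
      refine ⟨r, NNReal.coe_pos.2 hr, fun z hz w hw => ?_⟩
      have h1 := hr2 z hz w hw
      rw [edist_nndist, ENNReal.coe_lt_coe] at h1
      rw [← dist_eq_norm]
      exact_mod_cast h1.le
    obtain ⟨M, hM⟩ : ∃ M : ℝ, M = 1 + R ^ 2 := ⟨_, rfl⟩
    have hM1 : 1 ≤ M := by rw [hM]; nlinarith
    have hM0 : 0 < M := by linarith
    obtain ⟨ε1, hε1, hε1K⟩ : ∃ ε1 : ℝ, 0 < ε1 ∧ ∀ z ∈ K, ∀ Q ∈ limitSet ρ, ε1 ≤ fr (Qp z) Q := by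
      refine ⟨2 * d ^ 2 / (M * M), by positivity, fun z hz Q hQ => ?_⟩
      rw [himg] at hQ
      obtain ⟨w, hw, rfl⟩ := hQ
      rw [hfr]
      have h1 := hdK z hz w hw
      have h2 : 1 + ‖z‖ ^ 2 ≤ M := by
        have := hRK' z hz
        rw [hM]
        nlinarith [norm_nonneg z]
      have h3 : 1 + ‖w‖ ^ 2 ≤ M := by
        have := hRL' w hw
        rw [hM]
        nlinarith [norm_nonneg w]
      have h4 : d ^ 2 ≤ ‖z - w‖ ^ 2 := pow_le_pow_left₀ hd.le h1 2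
      apply div_le_div₀ (by positivity) (by linarith) (by positivity)
      exact mul_le_mul h2 h3 (by positivity) hM0.le
    obtain ⟨e, he, he1, heε, heM, heM2⟩ : ∃ e : ℝ, 0 < e ∧ e ≤ ε1 ∧ e ≤ ε ∧ 8 * e * M ≤ 1 ∧
        8 * e * M ^ 2 ≤ ε ^ 2 := by
      refine ⟨min (min ε1 ε) (min (1 / (8 * M)) (ε ^ 2 / (8 * M ^ 2))), by positivity,
        (min_le_left _ _).trans (min_le_left _ _), (min_le_left _ _).trans (min_le_right _ _),
        ?_, ?_⟩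
      · have h1 : min (min ε1 ε) (min (1 / (8 * M)) (ε ^ 2 / (8 * M ^ 2))) ≤ 1 / (8 * M) :=
          (min_le_right _ _).trans (min_le_left _ _)
        rw [le_div_iff₀ (by positivity)] at h1
        linarith
      · have h1 : min (min ε1 ε) (min (1 / (8 * M)) (ε ^ 2 / (8 * M ^ 2))) ≤
            ε ^ 2 / (8 * M ^ 2) := (min_le_right _ _).trans (min_le_right _ _)
        rw [le_div_iff₀ (by positivity)] at h1
        linarith
    apply ((hLDY Γ ρ hρ e he).union (hfin e he)).subset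
    intro γ hγ
    by_contra hnot
    apply hγ
    rw [mem_union, not_or] at hnot
    obtain ⟨hn1, hn2⟩ := hnot
    obtain ⟨Q, hQ, hQe⟩ : ∃ Q ∈ limitSet ρ, fr (orb ρ γ) Q < e := by
      by_contra hcon
      apply hn2
      intro Q hQ
      by_contra hlt
      exact hcon ⟨Q, hQ, not_le.1 hlt⟩
    rw [himg] at hQ
    obtain ⟨l, hl, rfl⟩ := hQ
    refine ⟨l, hl, hQe.trans_le heε, ?_⟩
    intro z hz
    have h1 : fr (orb ρ γ) (act (ρ γ) (Qp z)) < e := by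
      by_contra hcon
      apply hn1
      exact ⟨Qp z, (hQps z).1, fun R' hR' => he1.trans (hε1K z hz R' hR'), not_lt.1 hcon⟩
    have h2 : fr (act (ρ γ) (Qp z)) (Qp l) < 4 * e := by
      have h3 := htri (act (ρ γ) (Qp z)) (orb ρ γ) (Qp l)
      rw [hsymm _ (orb ρ γ)] at h3
      have h4 : Real.sqrt (fr (orb ρ γ) (act (ρ γ) (Qp z))) < Real.sqrt e :=
        Real.sqrt_lt_sqrt (hfr0 _ _).1 h1
      have h5 : Real.sqrt (fr (orb ρ γ) (Qp l)) < Real.sqrt e :=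
        Real.sqrt_lt_sqrt (hfr0 _ _).1 hQe
      have h6 : Real.sqrt (fr (act (ρ γ) (Qp z)) (Qp l)) < 2 * Real.sqrt e := by linarith
      have h7 := Real.sq_sqrt (hfr0 (act (ρ γ) (Qp z)) (Qp l)).1
      have h8 := Real.sq_sqrt he.le
      have h9 := pow_lt_pow_left₀ h6 (Real.sqrt_nonneg _) two_ne_zero
      rw [h7, mul_pow, h8] at h9
      linarith
    have hlM : 1 + ‖l‖ ^ 2 ≤ M := by
      have := hRL' l hl
      rw [hM]
      nlinarith [norm_nonneg l]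
    have hl0 : 0 < 1 + ‖l‖ ^ 2 := by positivity
    have hden : den (ρ γ) z ≠ 0 := by
      intro h0
      rw [(hact (ρ γ) z).2 h0, hfri, div_lt_iff₀ hl0] at h2
      nlinarith [mul_le_mul_of_nonneg_left hlM (by positivity : (0 : ℝ) ≤ 4 * e)]
    refine ⟨hden, ?_⟩
    rw [(hact (ρ γ) z).1 hden, hfr] at h2
    obtain ⟨w, hw⟩ : ∃ w, w = mob (ρ γ) z := ⟨_, rfl⟩
    rw [← hw] at h2 ⊢
    have hw0 : 0 < 1 + ‖w‖ ^ 2 := by positivity
    rw [div_lt_iff₀ (mul_pos hw0 hl0)] at h2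
    have h3 : 2 * ‖w - l‖ ^ 2 < 4 * e * ((1 + ‖w‖ ^ 2) * M) := by
      refine h2.trans_le ?_
      apply mul_le_mul_of_nonneg_left _ (by positivity)
      exact mul_le_mul_of_nonneg_left hlM hw0.le
    refine lla_alg hM hR (norm_nonneg _) he hε heM heM2 ?_ ?_ h3
    · have h4 : ‖w‖ ≤ ‖w - l‖ + R := by
        have h5 : w = (w - l) + l := by ring
        calc ‖w‖ = ‖(w - l) + l‖ := by rw [← h5]
          _ ≤ ‖w - l‖ + ‖l‖ := norm_add_le _ _
          _ ≤ ‖w - l‖ + R := by linarith [hRL' l hl]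
      have h6 : ‖w‖ ^ 2 ≤ (‖w - l‖ + R) ^ 2 := pow_le_pow_left₀ (norm_nonneg _) h4 2
      nlinarith [sq_nonneg (‖w - l‖ - R)]
    · nlinarith [sq_nonneg ‖w‖]

end Pool.Agent.Helper37.QD
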