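import Pool.Agent.Helper20.QD.St1

/-!
# Project QD, part B, module TJ1: existence of the inside of a Jordan curve, and the degree
-/

set_option autoImplicit false

open Filter Topology Matrix Set Metric
open scoped ComplexConjugate ComplexOrder

namespace Pool.Agent.Helper37.QD

open Pool.Agent.Helper35.PM Pool.Agent.Helper20.QD

private theorem ss_ne {z : ℂ} (hz : z ∈ SS) : z ≠ 0 := by
  rintro rfl
  have h : (0 : ℂ) ∈ sphere (0 : ℂ) 1 := hz
  rw [mem_sphere, dist_self] at h
  norm_num at h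

private theorem cg (hTPB : StTPB) {K : Set ℂ} {u v : ℂ → ℂ} (h : LogOn K u)
    (he : ∀ z ∈ K, u z = v z) : LogOn K v :=
  hTPB.2.2.2.2.2 K K u v (Subset.refl K) h he

private theorem pw (hTCI : StTCI) (hTPB : StTPB) {m : ℤ}
    (h : LogOn SS (fun z => z ^ m)) : m = 0 := by
  apply hTCI.1 0 1 m one_pos
  apply cg hTPB h
  intro z _
  simp only [sub_zero]

private theorem prodLog (hTPB : StTPB) (T : Finset ℂ) (u : ℂ → ℂ → ℂ)
    (h : ∀ t ∈ T, LogOn SS (u t)) : LogOn SS (fun z => ∏ t ∈ T, u t z) := by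
  classical
  induction T using Finset.induction_on with
  | empty =>
    refine ⟨fun _ => 0, continuousOn_const, ?_⟩
    intro z _
    simp
  | insert t T ht ih =>
    have h1 := h t (Finset.mem_insert_self _ _)
    have h2 := ih fun s hs => h s (Finset.mem_insert_of_mem hs)
    apply cg hTPB (hTPB.2.2.1 SS _ _ h1 h2)
    intro z _
    rw [Finset.prod_insert ht]

/-- uniqueness of the exponent -/
private theorem uq (hTCI : StTCI) (hTPB : StTPB) {u v : ℂ → ℂ} {a b : ℤ}
    (hu : ∀ z ∈ SS, u z ≠ 0) (hv : ∀ z ∈ SS, v z ≠ 0)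
    (h1 : LogOn SS (fun z => u z * z ^ a)) (h2 : LogOn SS (fun z => v z * z ^ b))
    (h3 : LogOn SS (fun z => u z / v z)) : a = b := by
  have h4 := hTPB.2.2.2.1 SS _ (-1) h2
  have h5 := hTPB.2.2.2.1 SS _ (-1) h3
  have h6 := hTPB.2.2.1 SS _ _ (hTPB.2.2.1 SS _ _ h1 h4) h5
  have h7 : LogOn SS (fun z => z ^ (a - b)) := by
    apply cg hTPB h6
    intro z hz
    have hz0 := ss_ne hz
    have hu0 := hu z hz
    have hv0 := hv z hz
    rw [_root_.zpow_neg, _root_.zpow_neg, _root_.zpow_one, _root_.zpow_one, zpow_sub₀ hz0]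
    field_simp
  have := pw hTCI hTPB h7
  omega

theorem hTJ1 (hTCI : StTCI) (hTPB : StTPB) (hTGE : StTGE) (hTSA : StTSA) (hTJ2 : StTJ2) :
    StTJ1 := by
  intro β J hP
  obtain ⟨hc, hi, hJ⟩ := id hP
  have hmaps : MapsTo β SS J := by
    intro z hz
    rw [← hJ]
    exact mem_image_of_mem β hz
  have hSSc : IsCompact SS := isCompact_sphere _ _
  have hJc : IsCompact J := by
    rw [← hJ]
    exact hSSc.image_of_continuousOn hc
  -- the inverse
  let w : ℂ → ℂ := Function.invFunOn β SS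
  have hwmem : ∀ z ∈ J, w z ∈ SS ∧ β (w z) = z := by
    intro z hz
    rw [← hJ] at hz
    exact ⟨Function.invFunOn_mem hz, Function.invFunOn_eq hz⟩
  have hwβ : ∀ ζ ∈ SS, w (β ζ) = ζ := by
    intro ζ hζ
    have h1 := hwmem (β ζ) (hmaps hζ)
    exact hi h1.1 hζ h1.2
  have hwc : ContinuousOn w J := by
    rw [continuousOn_iff_isClosed]
    intro t ht
    refine ⟨β '' (SS ∩ t), ?_, ?_⟩
    · exact ((hSSc.inter_right ht).image_of_continuousOn (hc.mono inter_subset_left)).isClosed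
    · ext z
      constructor
      · rintro ⟨h1, h2⟩
        exact ⟨⟨w z, ⟨(hwmem z h2).1, h1⟩, (hwmem z h2).2⟩, h2⟩
      · rintro ⟨⟨ζ, ⟨h1, h2⟩, rfl⟩, h3⟩
        refine ⟨?_, h3⟩
        rw [mem_preimage, hwβ ζ h1]
        exact h2
  have hw0 : ∀ z ∈ J, w z ≠ 0 := fun z hz => ss_ne (hwmem z hz).1
  obtain ⟨T, n, hT, hlog⟩ := hTGE J w hJc hwc hw0
  -- exponents
  have hne : ∀ t, t ∉ J → ∀ z ∈ SS, β z - t ≠ 0 := by
    intro t ht z hz h0
    apply ht
    rw [← sub_eq_zero.1 h0]
    exact hmaps hz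
  have hex : ∀ t : ℂ, ∃ a : ℤ, t ∉ J → LogOn SS (fun ζ => (β ζ - t) * ζ ^ a) := by
    intro t
    by_cases ht : t ∈ J
    · exact ⟨0, fun h => absurd ht h⟩
    · obtain ⟨a, ha⟩ := hTCI.2 (fun ζ => β ζ - t) (hc.sub continuousOn_const) (hne t ht)
      exact ⟨a, fun _ => ha⟩
  choose a ha using hex
  have hlog2 : LogOn SS (fun ζ => ζ * ∏ t ∈ T, (β ζ - t) ^ (n t)) := by
    apply cg hTPB (hTPB.1 SS J β _ hc hmaps hlog)
    intro z hz
    rw [hwβ z hz]
  have hsum : (1 : ℤ) = ∑ t ∈ T, a t * n t := by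
    have h1 : LogOn SS (fun ζ => ∏ t ∈ T, ((β ζ - t) * ζ ^ (a t)) ^ (- n t)) := by
      apply prodLog hTPB T (fun t ζ => ((β ζ - t) * ζ ^ (a t)) ^ (- n t))
      intro t ht
      exact hTPB.2.2.2.1 SS _ (- n t) (ha t (hT t ht))
    have h2 := hTPB.2.2.1 SS _ _ hlog2 h1
    have h3 : LogOn SS (fun ζ => ζ ^ (1 - ∑ t ∈ T, a t * n t)) := by
      apply cg hTPB h2
      intro z hz
      have hz0 := ss_ne hz
      have h4 : (z ^ (∑ t ∈ T, a t * n t)) = ∏ t ∈ T, (z ^ (a t)) ^ (n t) := by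
        clear h1 h2 hlog hlog2
        classical
        have : ∀ T' : Finset ℂ, (z ^ (∑ t ∈ T', a t * n t)) = ∏ t ∈ T', (z ^ (a t)) ^ (n t) := by
          intro T'
          induction T' using Finset.induction_on with
          | empty => simp
          | insert t T' ht ih =>
            rw [Finset.sum_insert ht, Finset.prod_insert ht, zpow_add₀ hz0, ih, _root_.zpow_mul]
        exact this T
      rw [zpow_sub₀ hz0, _root_.zpow_one, h4, mul_assoc, ← Finset.prod_mul_distrib, div_eq_mul_inv,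
        ← Finset.prod_inv_distrib]
      congr 1
      apply Finset.prod_congr rfl
      intro t ht
      have h5 : (β z - t) ≠ 0 := hne t (hT t ht) z hz
      rw [_root_.mul_zpow, _root_.zpow_neg, _root_.zpow_neg, ← mul_assoc, mul_inv_cancel₀ (zpow_ne_zero _ h5), one_mul]
    have h6 := pw hTCI hTPB h3
    omega
  -- exponents of points which are not inside
  have hout : ∀ t, t ∉ J → t ∉ inn J → a t = 0 := by
    intro t ht hti
    have h1 : LogOn J (fun z => z - t) := by
      by_contra h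
      exact hti ⟨ht, h⟩
    have h2 := hTPB.1 SS J β _ hc hmaps h1
    have h3 : LogOn SS (fun z : ℂ => (1 : ℂ) * z ^ (0 : ℤ)) :=
      ⟨fun _ => 0, continuousOn_const, fun z _ => by simp⟩
    refine uq hTCI hTPB (u := fun z => β z - t) (v := fun _ => 1) (b := 0) (hne t ht)
      (fun _ _ => one_ne_zero) (ha t ht) h3 ?_
    apply cg hTPB h2
    intro z _
    simp
  have hinn : (inn J).Nonempty := by
    by_contra hemp
    rw [not_nonempty_iff_eq_empty] at hemp
    have : (∑ t ∈ T, a t * n t) = 0 := by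
      apply Finset.sum_eq_zero
      intro t ht
      rw [hout t (hT t ht) (by rw [hemp]; exact notMem_empty t), zero_mul]
    omega
  refine ⟨hinn, ?_⟩
  obtain ⟨p, hp⟩ := hinn
  have hcon : ∀ q ∈ inn J, a q = a p := by
    intro q hq
    have hdis : Disjoint (inn J) J := by
      rw [Set.disjoint_left]
      intro x hx
      exact hx.1
    have h1 := hTSA.1 J (inn J) q p hJc (hTJ2 β J hP).2.2.1 hdis hq hp
    have h2 := hTPB.1 SS J β _ hc hmaps h1
    exact uq hTCI hTPB (u := fun z => β z - q) (v := fun z => β z - p) (hne q hq.1)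
      (hne p hp.1) (ha q hq.1) (ha p hp.1) h2
  have hdvd : a p ∣ 1 := by
    rw [hsum]
    apply Finset.dvd_sum
    intro t ht
    by_cases hti : t ∈ inn J
    · rw [hcon t hti]
      exact Dvd.intro _ rfl
    · rw [hout t (hT t ht) hti, zero_mul]
      exact dvd_zero _
  have hpm : a p = 1 ∨ a p = -1 := Int.isUnit_iff.1 (isUnit_of_dvd_one hdvd)
  refine ⟨- a p, ?_, ?_⟩
  · rcases hpm with h | h
    · right
      rw [h]
    · left
      rw [h]
      norm_num
  · intro q hq
    rw [neg_neg, ← hcon q hq]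
    exact ha q hq.1

end Pool.Agent.Helper37.QD
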