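import Pool.Agent.Helper58.QD.StG

/-!
# QD MODULE Bgv: doubling
-/

set_option autoImplicit false

namespace Pool.Agent.Helper37.QD

open Helper62.LH Helper62.DSH Helper58.QD MeasureTheory Set Filter Topology
open scoped ContDiff ENNReal

private theorem sub_ball {n : ℕ} {g : E n → Bl n} (hg : IsMet g) (hMet : StMet) (x y : E n)
    (r : ℝ) : Ba g x r ⊆ Ba g y (r + dg g x y) := by
  obtain ⟨-, -, -, -, hsymm, htri⟩ := hMet n g hg
  intro z hz
  have hz' : dg g x z < r := hz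
  have h1 := htri y x z
  have h2 := hsymm y x
  change dg g y z < r + dg g x y
  linarith

private theorem dbl {n : ℕ} {g : E n → Bl n} {Γ : E n → Bm n} (hg : IsMet g) (hΓ : IsChr g Γ)
    (hc : Cpl g) (hs : Sec g Γ) (hMet : StMet) (hDlc : StDlc) (hMg : StMg) (hNc : StNc)
    (hVol : StVol) (x : E n) (r t : ℝ) (ht : 0 < t) (ht1 : t ≤ 1) :
    mg g (Ba g x r) ≤ ENNReal.ofReal ((1 / t) ^ n) * mg g (Ba g x (t * r)) := by
  obtain ⟨-, -, hnn, h0, hsymm, htri⟩ := hMet n g hg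
  have hz : ∀ y : E n, ∃ z, z ∈ Gt g t x y := by
    intro y
    obtain ⟨c, hc0, hc1, hd⟩ := hMg n g hg hc x y
    have h0I : (0 : ℝ) ∈ Icc (0 : ℝ) 1 := ⟨le_rfl, zero_le_one⟩
    have h1I : (1 : ℝ) ∈ Icc (0 : ℝ) 1 := ⟨zero_le_one, le_rfl⟩
    have htI : t ∈ Icc (0 : ℝ) 1 := ⟨ht.le, ht1⟩
    refine ⟨c t, ?_, ?_⟩
    · have h := hd 0 h0I t htI
      rw [hc0, zero_sub, abs_neg, abs_of_pos ht] at h
      exact h
    · have h := hd t htI 1 h1I
      rw [hc1, abs_sub_comm, abs_of_nonneg (by linarith)] at h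
      exact h
  choose z hz using hz
  have hlip : ∀ y y' : E n, t * dg g y y' ≤ dg g (z y) (z y') := fun y y' =>
    hNc n g Γ hg hΓ hc hs x y y' (z y) (z y') t ⟨ht.le, ht1⟩ (hz y) (hz y')
  have hinj : ∀ y y' : E n, z y = z y' → y = y' := by
    intro y y' h
    have h1 := hlip y y'
    rw [h, h0] at h1
    have h2 := hnn y y'
    have h3 : dg g y y' = 0 := by
      by_contra hne
      have : 0 < dg g y y' := lt_of_le_of_ne h2 (Ne.symm hne)
      have := mul_pos ht this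
      linarith
    exact (hDlc n g hg).2.1 y y' h3
  let B : Set (E n) := Ba g x r
  let ψ : E n → E n := Function.invFun z
  have hψ : ∀ y, ψ (z y) = y := fun y =>
    Function.leftInverse_invFun (fun a b h => hinj a b h) y
  have hL : ∀ w ∈ z '' B, ∀ w' ∈ z '' B, dg g (ψ w) (ψ w') ≤ (1 / t) * dg g w w' := by
    rintro _ ⟨y, -, rfl⟩ _ ⟨y', -, rfl⟩
    rw [hψ, hψ, one_div, ← div_eq_inv_mul, le_div_iff₀ ht, mul_comm]
    exact hlip y y'
  have hv := hVol n g hg (z '' B) ψ (1 / t) (by positivity) hL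
  have hB : ψ '' (z '' B) = B := by
    rw [← image_comp]
    have : ψ ∘ z = id := funext hψ
    rw [this, image_id]
  rw [hB] at hv
  refine hv.trans ?_
  gcongr
  rintro _ ⟨y, hy, rfl⟩
  have hy' : dg g x y < r := hy
  change dg g x (z y) < t * r
  rw [(hz y).1]
  exact mul_lt_mul_of_pos_left hy' ht

theorem hBgv : StMet → StDlc → StMg → StNc → StVol → SBal → SBgv := by
  intro hMet hDlc hMg hNc hVol hBal n g Γ hg hΓ hc hs
  refine ⟨fun x r t ht ht1 => dbl hg hΓ hc hs hMet hDlc hMg hNc hVol x r t ht ht1, ?_, ?_⟩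
  · intro x r t ht ht1
    have h := dbl hg hΓ hc hs hMet hDlc hMg hNc hVol x r t ht ht1
    have hfin := (hBal n g Γ hg hΓ hc x).2.1 (t * r)
    have h2 := ENNReal.toReal_mono (ENNReal.mul_ne_top ENNReal.ofReal_ne_top hfin) h
    rw [ENNReal.toReal_mul, ENNReal.toReal_ofReal (by positivity)] at h2
    exact h2
  · intro x y r
    have hfin := (hBal n g Γ hg hΓ hc y).2.1 (r + dg g x y)
    exact ENNReal.toReal_mono hfin (measure_mono (sub_ball hg hMet x y r))

end Pool.Agent.Helper37.QD
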